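import Pool.Agent.Work.MP_db9399_ow_helper12.SUBL
import Pool.Agent.Work.MP_db9399_owc.Blocks

/-!
# MP_db9399, OWN2, block SUBL2 (helper68; copy of `ow_helper12/SUBL.lean` of helper12 with one more
family)
-/

set_option autoImplicit false

namespace Pool.Agent.Work.MP_db9399_owc.helper68

open Finset Classical
open Pool.Agent.Work.MP_db9399_all (nb mis pr DepOnI)
open Pool.Agent.Work.MP_db9399_en (ex)
open Pool.Agent.Work.MP_db9399_ow
open Pool.Agent.Work.MP_db9399_ow.helper12s (Z tail depZ num_b num_c)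

universe u

theorem num_t {T m Y : ℝ} (hm : 0 < m) (hmT : 100 * m ≤ T) (hY : Y ≤ 64 * T) :
    Y / 200 ≤ min ((T - m) ^ 2 / (4 * 1 * m)) ((T - m) / (2 * 1)) := by
  have hT : 0 < T := by linarith
  have h1 : 99 / 100 * T ≤ T - m := by linarith
  refine le_min ?_ ?_
  · rw [le_div_iff₀ (by positivity)]
    have h2 : (99 / 100 * T) ^ 2 ≤ (T - m) ^ 2 := pow_le_pow_left₀ (by positivity) h1 2
    have h3 : Y / 200 * (4 * 1 * m) ≤ (64 * T) / 200 * (4 * 1 * m) :=
      mul_le_mul_of_nonneg_right (by linarith) (by positivity)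
    have h4 : (64 * T) / 200 * (4 * 1 * m) ≤ (64 * T) / 200 * (4 * 1 * (T / 100)) :=
      mul_le_mul_of_nonneg_left (by linarith) (by positivity)
    nlinarith
  · rw [le_div_iff₀ (by norm_num)]
    linarith

theorem stmt_SUBL2 (hSYM : Stmt_SYM.{u}) : Stmt_SUBL2.{u} := by
  intro C K K1
  refine ⟨C + K + 2 * K1 + 8, K + C + 20, 400 + 32 * (C + 4).factorial + (K + 1).factorial, ?_⟩
  intro V _ G d x P J R Y _ _ _ S g Q Zy U L hx hlog hxd hP2 hP0 hdeg hNU hL hgS hgK hSc hSm hgU hQ
    hCap hZU
  -- real numbers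
  set X : ℝ := (x : ℝ) with hXdef
  have hX400 : (400 : ℝ) ≤ X := by
    have : 400 ≤ x := by omega
    rw [hXdef]
    exact_mod_cast this
  have hX0 : 0 < X := by linarith
  have hX1 : 1 ≤ X := by linarith
  have hfac1 : (32 * (C + 4).factorial : ℝ) ≤ X := by
    have : 32 * (C + 4).factorial ≤ x := by omega
    rw [hXdef]
    exact_mod_cast this
  have hfac2 : ((K + 1).factorial : ℝ) ≤ X := by
    have : (K + 1).factorial ≤ x := by omega
    rw [hXdef]
    exact_mod_cast this
  have hdX : X ^ (K + C + 20) ≤ (d : ℝ) := by rw [hXdef]; exact_mod_cast hxd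
  have hd0 : (0 : ℝ) < d := lt_of_lt_of_le (by positivity) hdX
  set E : ℝ := Real.exp (X ^ (C + 1)) with hE
  have hXC1 : X ≤ X ^ (C + 1) := le_self_pow₀ hX1 (by omega)
  have hXC0 : X ^ C ≤ X ^ (C + 1) := pow_le_pow_right₀ hX1 (by omega)
  have hexpX : Real.exp X ≤ E := Real.exp_le_exp.2 hXC1
  have hE1 : 1 ≤ E := Real.one_le_exp (by positivity)
  have hE336 : 336 ≤ E := by
    have := Real.add_one_le_exp X
    linarith
  have hdE : (d : ℝ) ≤ E := ((Real.log_le_iff_le_exp hd0).1 hlog).trans hexpX
  have hCE : Real.exp (X ^ C) ≤ E := Real.exp_le_exp.2 hXC0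
  have hKE : X ^ K ≤ E := by
    have h1 := Real.pow_div_factorial_le_exp X hX0.le (K + 1)
    have hf : (0 : ℝ) < (K + 1).factorial := by positivity
    rw [div_le_iff₀ hf] at h1
    have h2 : X ^ K * X ≤ Real.exp X * X := by
      calc X ^ K * X = X ^ (K + 1) := by ring
        _ ≤ Real.exp X * (K + 1).factorial := h1
        _ ≤ Real.exp X * X := mul_le_mul_of_nonneg_left hfac2 (Real.exp_pos _).le
    exact (le_of_mul_le_mul_right h2 hX0).trans hexpX
  have hlE : 32 * X ^ (C + 3) ≤ E := by
    have h1 := Real.pow_div_factorial_le_exp X hX0.le (C + 4)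
    have hf : (0 : ℝ) < (C + 4).factorial := by positivity
    rw [div_le_iff₀ hf] at h1
    have h2 : 32 * X ^ (C + 3) * X ≤ Real.exp X * X := by
      calc 32 * X ^ (C + 3) * X = 32 * X ^ (C + 4) := by ring
        _ ≤ 32 * (Real.exp X * (C + 4).factorial) := by linarith
        _ = Real.exp X * (32 * (C + 4).factorial) := by ring
        _ ≤ Real.exp X * X := mul_le_mul_of_nonneg_left hfac1 (Real.exp_pos _).le
    exact (le_of_mul_le_mul_right h2 hX0).trans hexpX
  set l : ℕ := 32 * x ^ (C + 3) with hl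
  have hlr : (l : ℝ) = 32 * X ^ (C + 3) := by rw [hl]; push_cast; rfl
  -- the sublists
  set lam : ℕ := ⌈(d : ℝ) / (2 * X ^ (2 * K1 + 1))⌉₊ with hlam
  have hlam0 : 0 < lam := Nat.ceil_pos.2 (by positivity)
  have hlam1 : (d : ℝ) / (2 * X ^ (2 * K1 + 1)) ≤ lam := Nat.le_ceil _
  have hlamr : (0 : ℝ) < lam := by exact_mod_cast hlam0
  have hinj : ∀ v ∈ U, ∃ e : Fin lam → Fin P, Function.Injective e ∧ ∀ a, e a ∈ L v := by
    intro v hv
    have h1 : lam ≤ (L v).card := Nat.ceil_le.2 (hL v hv)
    have h2 : Fintype.card (Fin lam) ≤ Fintype.card (L v) := by simpa using h1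
    obtain ⟨e⟩ := Function.Embedding.nonempty_of_card_le h2
    exact ⟨fun a => (e a : Fin P), fun a b hab => e.injective (Subtype.ext hab),
      fun a => (e a).2⟩
  set e : V → Fin lam → Fin P := fun v =>
    if h : v ∈ U then (hinj v h).choose else fun _ => ⟨0, hP0⟩ with he
  have heinj : ∀ v ∈ U, Function.Injective (e v) := by
    intro v hv
    rw [he]
    simp only [hv, dif_pos]
    exact (hinj v hv).choose_spec.1
  have heL : ∀ v ∈ U, ∀ a, e v a ∈ L v := by
    intro v hv
    rw [he]
    simp only [hv, dif_pos]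
    exact (hinj v hv).choose_spec.2
  have hρ : (l : ℝ) / lam ≤ 64 * X ^ (C + 2 * K1 + 4) / d := by
    rw [hlr, div_le_div_iff₀ hlamr hd0]
    rw [div_le_iff₀ (by positivity)] at hlam1
    calc 32 * X ^ (C + 3) * (d : ℝ) ≤ 32 * X ^ (C + 3) * (lam * (2 * X ^ (2 * K1 + 1))) :=
          mul_le_mul_of_nonneg_left hlam1 (by positivity)
      _ = 64 * X ^ (C + 2 * K1 + 4) * lam := by ring
  have hρ0 : 0 ≤ (l : ℝ) / lam := by positivity
  -- the events
  set κ : Type u := (V × Fin P) ⊕ ((J ⊕ R) ⊕ (Y × Fin P)) with hκ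
  set W : κ → Finset V := Sum.elim (fun p => nb G p.1 ∩ U)
    (Sum.elim (fun _ => U) (fun p => Zy p.1 ∩ U)) with hW
  set h : κ → V → Fin P → ℝ := Sum.elim (fun p _ b => if b = p.2 then 1 else 0)
    (Sum.elim (Sum.elim (fun j w b => |g j b w|) (fun q w b => if (b, w) ∈ Q q then 1 else 0))
      (fun p _ b => if b = p.2 then 1 else 0)) with hh
  set θ : κ → ℝ := Sum.elim (fun _ => X ^ (C + 3) / 64)
    (Sum.elim (Sum.elim (fun _ => 1 / (4 * X)) (fun _ => X ^ (C + K + 2 * K1 + 8)))
      (fun p => X ^ (C + 3) * (1 + ((Zy p.1).card : ℝ) / d))) with hθ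
  set Sc : κ → Finset V := Sum.elim (fun p => nb G p.1 ∩ U)
    (Sum.elim (Sum.elim (fun j => S j) (fun q => univ.filter fun w => ∃ b, (b, w) ∈ Q q))
      (fun p => Zy p.1 ∩ U)) with hScdef
  have hQcard : ∀ q, (univ.filter fun w => ∃ b, (b, w) ∈ Q q).card ≤ (Q q).card := by
    intro q
    refine (card_le_card (t := (Q q).image Prod.snd) ?_).trans card_image_le
    intro w hw
    obtain ⟨b, hb⟩ := (mem_filter.1 hw).2
    exact mem_image.2 ⟨(b, w), hb, rfl⟩
  have key : ∃ f : V × Fin l → Fin lam, ∀ k, ¬ (θ k ≤ Z (W k) e (h k) f) := by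
    refine hSYM (V × Fin l) lam κ (fun k => Sc k ×ˢ (univ : Finset (Fin l)))
      (fun k f => θ k ≤ Z (W k) e (h k) f) (Real.exp (-(X ^ (C + 3) / 200))) (2 * E ^ 3)
      (8 * E ^ 4) hlam0 (by positivity) (by positivity) ?_ ?_ ?_ (Real.exp_pos _).le ?_ ?_
    · -- scopes
      intro k f f' hff
      have h1 : Z (W k) e (h k) f = Z (W k) e (h k) f' := by
        refine depZ (W k) (Sc k) e (h k) ?_ f f' hff
        intro w hw hw' b
        rcases k with ⟨v, b'⟩ | (j | q) | ⟨y, b'⟩
        · exact absurd hw hw'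
        · simp only [hh, Sum.elim_inr, Sum.elim_inl, abs_eq_zero]
          exact hgS j b w hw'
        · simp only [hh, Sum.elim_inr, Sum.elim_inl]
          rw [if_neg]
          intro hb
          exact hw' (mem_filter.2 ⟨mem_univ _, b, hb⟩)
        · exact absurd hw hw'
      simp only [h1]
    · -- sizes of the scopes
      intro k
      rw [card_product, card_univ, Fintype.card_fin, Nat.cast_mul, hlr]
      have hE2 : 0 ≤ E := by linarith
      rcases k with ⟨v, b'⟩ | (j | q) | ⟨y, b'⟩
      · have h1 : ((nb G v ∩ U).card : ℝ) ≤ 2 * E := by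
          have h2 : (nb G v ∩ U).card ≤ 2 * d := (card_le_card inter_subset_left).trans (hdeg v)
          have h3 : ((nb G v ∩ U).card : ℝ) ≤ 2 * d := by exact_mod_cast h2
          linarith
        calc ((Sc (Sum.inl (v, b'))).card : ℝ) * (32 * X ^ (C + 3)) ≤ (2 * E) * E :=
              mul_le_mul h1 hlE (by positivity) (by positivity)
          _ ≤ 2 * E ^ 3 := by nlinarith [mul_nonneg hE2 hE2]
      · calc ((Sc (Sum.inr (Sum.inl (Sum.inl j)))).card : ℝ) * (32 * X ^ (C + 3)) ≤ E * E :=
              mul_le_mul ((hSc j).trans hCE) hlE (by positivity) (by positivity)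
          _ ≤ 2 * E ^ 3 := by nlinarith [mul_nonneg hE2 hE2]
      · have h1 : ((univ.filter fun w => ∃ b, (b, w) ∈ Q q).card : ℝ) ≤ E * E := by
          have h2 : ((univ.filter fun w => ∃ b, (b, w) ∈ Q q).card : ℝ) ≤ (Q q).card := by
            exact_mod_cast hQcard q
          exact (h2.trans (hQ.card q)).trans (mul_le_mul hdE hKE (by positivity) (by positivity))
        calc ((Sc (Sum.inr (Sum.inl (Sum.inr q)))).card : ℝ) * (32 * X ^ (C + 3)) ≤ (E * E) * E :=
              mul_le_mul h1 hlE (by positivity) (by positivity)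
          _ ≤ 2 * E ^ 3 := by nlinarith [mul_nonneg hE2 (mul_nonneg hE2 hE2)]
      · have h1 : ((Zy y ∩ U).card : ℝ) ≤ E * E := by
          have h2 : (Zy y ∩ U).card ≤ d ^ 2 := (card_le_card inter_subset_left).trans (hCap.card y)
          have h3 : ((Zy y ∩ U).card : ℝ) ≤ (d : ℝ) ^ 2 := by exact_mod_cast h2
          have h4 : (d : ℝ) ^ 2 ≤ E ^ 2 := pow_le_pow_left₀ hd0.le hdE 2
          calc ((Zy y ∩ U).card : ℝ) ≤ E ^ 2 := h3.trans h4
            _ = E * E := by ring
        calc ((Sc (Sum.inr (Sum.inr (y, b')))).card : ℝ) * (32 * X ^ (C + 3)) ≤ (E * E) * E :=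
              mul_le_mul h1 hlE (by positivity) (by positivity)
          _ ≤ 2 * E ^ 3 := by nlinarith [mul_nonneg hE2 (mul_nonneg hE2 hE2)]
    · -- number of scopes through a coordinate
      intro y
      refine le_trans (le_of_eq (b := ∑ k : κ, if y.1 ∈ Sc k then (1 : ℝ) else 0) ?_) ?_
      · rw [sum_boole]
        congr 2
        ext k
        simp [mem_product]
      rw [Fintype.sum_sum_type, Fintype.sum_sum_type, Fintype.sum_sum_type, sum_boole, sum_boole,
        sum_boole, sum_boole]
      have h2 : ((univ.filter fun p : V × Fin P => y.1 ∈ Sc (Sum.inl p)).card : ℝ) ≤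
          4 * (d : ℝ) ^ 2 := by
        have h3 : (univ.filter fun p : V × Fin P => y.1 ∈ Sc (Sum.inl p)).card ≤
            (nb G y.1 ×ˢ (univ : Finset (Fin P))).card := by
          refine card_le_card fun p hp => ?_
          have h4 : y.1 ∈ nb G p.1 ∩ U := (mem_filter.1 hp).2
          have h5 : G.Adj p.1 y.1 := by
            have := (mem_inter.1 h4).1
            simpa [nb] using this
          refine mem_product.2 ⟨?_, mem_univ _⟩
          simpa [nb] using h5.symm
        rw [card_product, card_univ, Fintype.card_fin] at h3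
        have h6 : (nb G y.1).card * P ≤ (2 * d) * (2 * d) := Nat.mul_le_mul (hdeg _) hP2
        have h7 : ((univ.filter fun p : V × Fin P => y.1 ∈ Sc (Sum.inl p)).card : ℝ) ≤
            ((2 * d) * (2 * d) : ℕ) := by exact_mod_cast h3.trans h6
        push_cast at h7
        linarith
      have h3 := hSm y.1
      have h4 : ((univ.filter fun q : R => y.1 ∈ Sc (Sum.inr (Sum.inl (Sum.inr q)))).card : ℝ) ≤
          Real.exp (X ^ C) := by
        refine le_trans (le_of_eq ?_) (hQ.mul y.1)
        congr 2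
        ext q
        simp [hScdef]
      have h5 : (d : ℝ) ^ 2 ≤ E ^ 2 := pow_le_pow_left₀ hd0.le hdE 2
      have h6 : E ≤ E ^ 2 := by nlinarith
      have h7 : ((univ.filter fun j : J => y.1 ∈ Sc (Sum.inr (Sum.inl (Sum.inl j)))).card : ℝ) ≤
          Real.exp (X ^ C) := h3
      have h8 : ((univ.filter fun p : Y × Fin P => y.1 ∈ Sc (Sum.inr (Sum.inr p))).card : ℝ) ≤
          2 * (d : ℝ) ^ 4 := by
        have h3 : (univ.filter fun p : Y × Fin P => y.1 ∈ Sc (Sum.inr (Sum.inr p))).card ≤
            ((univ.filter fun z => y.1 ∈ Zy z) ×ˢ (univ : Finset (Fin P))).card := by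
          refine card_le_card fun p hp => ?_
          have h4 : y.1 ∈ Zy p.1 ∩ U := (mem_filter.1 hp).2
          exact mem_product.2 ⟨mem_filter.2 ⟨mem_univ _, (mem_inter.1 h4).1⟩, mem_univ _⟩
        rw [card_product, card_univ, Fintype.card_fin] at h3
        have h6 : (univ.filter fun z => y.1 ∈ Zy z).card * P ≤ d ^ 3 * (2 * d) :=
          Nat.mul_le_mul (hCap.mul _) hP2
        have h7 : ((univ.filter fun p : Y × Fin P => y.1 ∈ Sc (Sum.inr (Sum.inr p))).card : ℝ) ≤
            (d ^ 3 * (2 * d) : ℕ) := by exact_mod_cast h3.trans h6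
        push_cast at h7
        linarith
      have h9 : (d : ℝ) ^ 4 ≤ E ^ 4 := pow_le_pow_left₀ hd0.le hdE 4
      have h10 : E ^ 2 ≤ E ^ 4 := pow_le_pow_right₀ hE1 (by norm_num)
      linarith
    · -- probabilities
      intro k
      have hexp4 : Real.exp (-(X ^ (C + 3) / 4)) ≤ Real.exp (-(X ^ (C + 3) / 200)) := by
        refine Real.exp_le_exp.2 (neg_le_neg ?_)
        have : 0 ≤ X ^ (C + 3) := by positivity
        linarith
      have h6400 : 100 * (64 / X ^ 3) ≤ X ^ (C + 3) / 64 := by
        have e1 : (400 : ℝ) ^ 3 ≤ X ^ 3 := pow_le_pow_left₀ (by norm_num) hX400 3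
        have e2 : X ^ 3 ≤ X ^ (C + 3) := pow_le_pow_right₀ hX1 (by omega)
        have e3 : 64 / X ^ 3 ≤ 1 := by
          rw [div_le_one (by positivity)]
          linarith
        linarith
      rcases k with ⟨v, b'⟩ | (j | q) | ⟨y, b'⟩
      · have h1 := tail (l := l) hlam0 (nb G v ∩ U) e (fun w hw => heinj w (mem_inter.1 hw).2)
          (h (Sum.inl (v, b'))) (fun w b => by simp only [hh, Sum.elim_inl]; split_ifs <;> norm_num)
          (B := 1) (m := 64 / X ^ 3) (s := X ^ (C + 3) / 64 - 64 / X ^ 3)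
          (fun w b => by simp only [hh, Sum.elim_inl]; split_ifs <;> norm_num) one_pos
          (by positivity) ?_ ?_
        · have h2 := num_t (Y := X ^ (C + 3)) (T := X ^ (C + 3) / 64) (m := 64 / X ^ 3)
            (by positivity) h6400 (by linarith)
          have h3 : 64 / X ^ 3 + (X ^ (C + 3) / 64 - 64 / X ^ 3) = X ^ (C + 3) / 64 := by ring
          rw [h3] at h1
          exact h1.trans (Real.exp_le_exp.2 (neg_le_neg h2))
        · have h2 : ∑ w ∈ nb G v ∩ U, ∑ b, h (Sum.inl (v, b')) w b = ((nb G v ∩ U).card : ℝ) := by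
            simp [hh]
          rw [h2]
          calc (l : ℝ) / lam * ((nb G v ∩ U).card : ℝ) ≤
                (64 * X ^ (C + 2 * K1 + 4) / d) * (d / X ^ (C + 2 * K1 + 7)) :=
                mul_le_mul hρ (hNU v) (by positivity) (by positivity)
            _ = 64 / X ^ 3 := by
                have : X ^ (C + 2 * K1 + 7) = X ^ (C + 2 * K1 + 4) * X ^ 3 := by ring
                rw [this]
                field_simp
        · have : 0 < 64 / X ^ 3 := by positivity
          linarith
      · have h128 : 128 / X ^ 3 ≤ 1 / (4 * X) := by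
          rw [div_le_div_iff₀ (by positivity) (by positivity)]
          have : (400 : ℝ) ^ 2 ≤ X ^ 2 := pow_le_pow_left₀ (by norm_num) hX400 2
          nlinarith [mul_pos hX0 (mul_pos hX0 hX0)]
        have h1 := tail (l := l) hlam0 U e (fun w hw => heinj w hw)
          (h (Sum.inr (Sum.inl (Sum.inl j))))
          (fun w b => by simp only [hh, Sum.elim_inl, Sum.elim_inr]; positivity)
          (B := X ^ K / d) (m := 128 / X ^ 3) (s := 1 / (4 * X) - 128 / X ^ 3)
          (fun w b => hgK j b w) (by positivity) (by positivity) ?_ (by linarith)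
        · have h2 := num_b C K hX400 hdX
          have h3 : 128 / X ^ 3 + (1 / (4 * X) - 128 / X ^ 3) = 1 / (4 * X) := by ring
          rw [h3] at h1
          exact (h1.trans (Real.exp_le_exp.2 (neg_le_neg h2))).trans hexp4
        · have h2 : ∑ w ∈ U, ∑ b, h (Sum.inr (Sum.inl (Sum.inl j))) w b ≤
              2 * d / X ^ (C + 2 * K1 + 7) := by
            simp only [hh, Sum.elim_inl, Sum.elim_inr]
            rw [sum_comm]
            calc ∑ b, ∑ w ∈ U, |g j b w| ≤ ∑ _b : Fin P, 1 / X ^ (C + 2 * K1 + 7) :=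
                  sum_le_sum fun b _ => hgU j b
              _ = P / X ^ (C + 2 * K1 + 7) := by
                  rw [sum_const, card_univ, Fintype.card_fin, nsmul_eq_mul]; ring
              _ ≤ 2 * d / X ^ (C + 2 * K1 + 7) := by
                  refine div_le_div_of_nonneg_right ?_ (by positivity)
                  exact_mod_cast hP2
          have h20 : 0 ≤ ∑ w ∈ U, ∑ b, h (Sum.inr (Sum.inl (Sum.inl j))) w b := by
            simp only [hh, Sum.elim_inl, Sum.elim_inr]
            positivity
          calc (l : ℝ) / lam * ∑ w ∈ U, ∑ b, h (Sum.inr (Sum.inl (Sum.inl j))) w b ≤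
                (64 * X ^ (C + 2 * K1 + 4) / d) * (2 * d / X ^ (C + 2 * K1 + 7)) :=
                mul_le_mul hρ h2 h20 (by positivity)
            _ = 128 / X ^ 3 := by
                have : X ^ (C + 2 * K1 + 7) = X ^ (C + 2 * K1 + 4) * X ^ 3 := by ring
                rw [this]
                field_simp
                norm_num
      · set Zc : ℝ := X ^ (C + 2 * K1 + 4 + K) with hZc
        have hZc0 : 0 < Zc := by positivity
        have hXZ : X ^ (C + K + 2 * K1 + 8) = X ^ 4 * Zc := by rw [hZc]; ring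
        have h4 : (400 : ℝ) ^ 4 ≤ X ^ 4 := pow_le_pow_left₀ (by norm_num) hX400 4
        have h1 := tail (l := l) hlam0 U e (fun w hw => heinj w hw)
          (h (Sum.inr (Sum.inl (Sum.inr q))))
          (fun w b => by simp only [hh, Sum.elim_inr, Sum.elim_inl]; split_ifs <;> norm_num)
          (B := 1) (m := 64 * Zc) (s := X ^ 4 * Zc - 64 * Zc)
          (fun w b => by simp only [hh, Sum.elim_inr, Sum.elim_inl]; split_ifs <;> norm_num) one_pos
          (by positivity) ?_ (by nlinarith)
        · have h2 := num_c hX400 (Y := X ^ (C + 3)) (Z := Zc)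
            (pow_le_pow_right₀ hX1 (by omega)) hZc0
          have h3 : 64 * Zc + (X ^ 4 * Zc - 64 * Zc) = X ^ (C + K + 2 * K1 + 8) := by
            rw [hXZ]; ring
          rw [h3] at h1
          exact (h1.trans (Real.exp_le_exp.2 (neg_le_neg h2))).trans hexp4
        · have h2 : ∑ w ∈ U, ∑ b, h (Sum.inr (Sum.inl (Sum.inr q))) w b ≤ d * X ^ K := by
            refine le_trans ?_ (hQ.card q)
            simp only [hh, Sum.elim_inr, Sum.elim_inl]
            have h5 : ∀ w ∈ U, ∑ b : Fin P, (if (b, w) ∈ Q q then (1 : ℝ) else 0) =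
                (((Q q).filter fun y => y.2 = w).card : ℝ) := by
              intro w _
              rw [sum_boole]
              congr 1
              refine card_bij (fun b _ => (b, w)) ?_ ?_ ?_
              · intro b hb
                exact mem_filter.2 ⟨(mem_filter.1 hb).2, rfl⟩
              · intro b _ b'' _ hbb
                exact (Prod.mk.inj hbb).1
              · rintro ⟨b, w'⟩ hy
                obtain ⟨h6, h7⟩ := mem_filter.1 hy
                simp only at h7
                subst h7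
                exact ⟨b, mem_filter.2 ⟨mem_univ _, h6⟩, rfl⟩
            rw [sum_congr rfl h5, ← Nat.cast_sum]
            have h6 : ∑ w ∈ U, ((Q q).filter fun y => y.2 = w).card ≤ (Q q).card := by
              rw [← card_biUnion]
              · exact card_le_card (biUnion_subset.2 fun w _ => filter_subset _ _)
              · intro w _ w' _ hne
                refine Finset.disjoint_left.2 fun y h1 h2 => ?_
                exact hne ((mem_filter.1 h1).2.symm.trans (mem_filter.1 h2).2)
            exact_mod_cast h6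
          have h20 : 0 ≤ ∑ w ∈ U, ∑ b, h (Sum.inr (Sum.inl (Sum.inr q))) w b := by
            simp only [hh, Sum.elim_inr, Sum.elim_inl]
            positivity
          calc (l : ℝ) / lam * ∑ w ∈ U, ∑ b, h (Sum.inr (Sum.inl (Sum.inr q))) w b ≤
                (64 * X ^ (C + 2 * K1 + 4) / d) * (d * X ^ K) :=
                mul_le_mul hρ h2 h20 (by positivity)
            _ = 64 * Zc := by
                rw [hZc, pow_add X (C + 2 * K1 + 4) K]
                field_simp
      · have hq1 : (1 : ℝ) ≤ 1 + ((Zy y).card : ℝ) / d := by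
          have : (0 : ℝ) ≤ ((Zy y).card : ℝ) / d := by positivity
          linarith
        set qy : ℝ := 1 + ((Zy y).card : ℝ) / d with hqy
        have hq0 : 0 < qy := by linarith
        have hmT : 100 * (64 / X ^ 3 * qy) ≤ X ^ (C + 3) * qy := by
          have e1 : 100 * (64 / X ^ 3) ≤ X ^ (C + 3) := by
            have : 0 ≤ X ^ (C + 3) := by positivity
            linarith
          have := mul_le_mul_of_nonneg_right e1 hq0.le
          linarith
        have h1 := tail (l := l) hlam0 (Zy y ∩ U) e (fun w hw => heinj w (mem_inter.1 hw).2)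
          (h (Sum.inr (Sum.inr (y, b'))))
          (fun w b => by simp only [hh, Sum.elim_inr]; split_ifs <;> norm_num)
          (B := 1) (m := 64 / X ^ 3 * qy) (s := X ^ (C + 3) * qy - 64 / X ^ 3 * qy)
          (fun w b => by simp only [hh, Sum.elim_inr]; split_ifs <;> norm_num) one_pos
          (by positivity) ?_ ?_
        · have h2 := num_t (Y := X ^ (C + 3)) (T := X ^ (C + 3) * qy) (m := 64 / X ^ 3 * qy)
            (by positivity) hmT (by
              have : 0 ≤ X ^ (C + 3) := by positivity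
              nlinarith)
          have h3 : 64 / X ^ 3 * qy + (X ^ (C + 3) * qy - 64 / X ^ 3 * qy) = X ^ (C + 3) * qy := by
            ring
          rw [h3] at h1
          exact h1.trans (Real.exp_le_exp.2 (neg_le_neg h2))
        · have h2 : ∑ w ∈ Zy y ∩ U, ∑ b, h (Sum.inr (Sum.inr (y, b'))) w b =
              ((Zy y ∩ U).card : ℝ) := by
            simp [hh]
          rw [h2]
          calc (l : ℝ) / lam * ((Zy y ∩ U).card : ℝ) ≤
                (64 * X ^ (C + 2 * K1 + 4) / d) * ((d + (Zy y).card) / X ^ (C + 2 * K1 + 7)) :=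
                mul_le_mul hρ (hZU y) (by positivity) (by positivity)
            _ = 64 / X ^ 3 * qy := by
                have : X ^ (C + 2 * K1 + 7) = X ^ (C + 2 * K1 + 4) * X ^ 3 := by ring
                rw [this, hqy]
                field_simp
        · have : 0 < 64 / X ^ 3 * qy := by positivity
          linarith
    · -- the condition
      have h1 : 2 * E ^ 3 + 1 ≤ 3 * E ^ 3 := by
        have : 1 ≤ E ^ 3 := one_le_pow₀ hE1
        linarith
      have h2 : 8 * E ^ 4 + 1 ≤ 9 * E ^ 4 := by
        have : 1 ≤ E ^ 4 := one_le_pow₀ hE1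
        linarith
      have h3 : (2 * E ^ 3 + 1) * (8 * E ^ 4 + 1) ≤ (3 * E ^ 3) * (9 * E ^ 4) :=
        mul_le_mul h1 h2 (by positivity) (by positivity)
      have h4 : 16 * ((3 * E ^ 3) * (9 * E ^ 4)) ≤ E ^ 9 := by
        have e1 : 336 * 336 ≤ E * E := mul_le_mul hE336 hE336 (by norm_num) (by linarith)
        have : 432 * E ^ 7 ≤ (E * E) * E ^ 7 :=
          mul_le_mul_of_nonneg_right (by linarith) (by positivity)
        calc 16 * ((3 * E ^ 3) * (9 * E ^ 4)) = 432 * E ^ 7 := by ring
          _ ≤ (E * E) * E ^ 7 := this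
          _ = E ^ 9 := by ring
      have h5 : E ^ 9 = Real.exp (9 * X ^ (C + 1)) := by
        rw [hE, ← Real.exp_nat_mul]
        norm_num
      have h6 : 9 * X ^ (C + 1) ≤ X ^ (C + 3) / 200 := by
        have e1 : X ^ (C + 3) = X ^ 2 * X ^ (C + 1) := by ring
        have e2 : (400 : ℝ) ^ 2 ≤ X ^ 2 := pow_le_pow_left₀ (by norm_num) hX400 2
        rw [e1]
        have e3 : 0 < X ^ (C + 1) := by positivity
        nlinarith
      calc 16 * Real.exp (-(X ^ (C + 3) / 200)) * (2 * E ^ 3 + 1) * (8 * E ^ 4 + 1) =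
            Real.exp (-(X ^ (C + 3) / 200)) * (16 * ((2 * E ^ 3 + 1) * (8 * E ^ 4 + 1))) := by ring
        _ ≤ Real.exp (-(X ^ (C + 3) / 200)) * E ^ 9 := by
            refine mul_le_mul_of_nonneg_left ?_ (Real.exp_pos _).le
            linarith
        _ = Real.exp (-(X ^ (C + 3) / 200) + 9 * X ^ (C + 1)) := by rw [h5, ← Real.exp_add]
        _ ≤ 1 := by
            rw [Real.exp_le_one_iff]
            linarith
  obtain ⟨f, hf⟩ := key
  refine ⟨fun v i => e v (f (v, i)), fun v hv i => heL v hv _, ?_, ?_, ?_, ?_⟩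
  · intro v _ b
    have h1 := hf (Sum.inl (v, b))
    rw [not_le] at h1
    have h2 : Z (W (Sum.inl (v, b))) e (h (Sum.inl (v, b))) f =
        ((((nb G v ∩ U) ×ˢ (univ : Finset (Fin l))).filter
          (fun y => e y.1 (f (y.1, y.2)) = b)).card : ℝ) := by
      simp only [Z, hW, hh, Sum.elim_inl]
      rw [sum_boole]
    rw [h2] at h1
    have h3 : ((64 * (((nb G v ∩ U) ×ˢ (univ : Finset (Fin l))).filter
          (fun y => e y.1 (f (y.1, y.2)) = b)).card : ℕ) : ℝ) ≤ ((x ^ (C + 3) : ℕ) : ℝ) := by
      push_cast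
      have h4 : θ (Sum.inl (v, b)) = X ^ (C + 3) / 64 := rfl
      rw [h4] at h1
      linarith
    exact_mod_cast h3
  · intro j
    have h1 := hf (Sum.inr (Sum.inl (Sum.inl j)))
    rw [not_le] at h1
    have h2 : Z (W (Sum.inr (Sum.inl (Sum.inl j)))) e (h (Sum.inr (Sum.inl (Sum.inl j)))) f =
        ∑ v ∈ U, ∑ i, |g j (e v (f (v, i))) v| := by
      simp only [Z, hW, hh, Sum.elim_inr, Sum.elim_inl]
      rw [sum_product]
    rw [h2] at h1
    exact h1.le
  · intro q
    have h1 := hf (Sum.inr (Sum.inl (Sum.inr q)))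
    rw [not_le] at h1
    have h2 : Z (W (Sum.inr (Sum.inl (Sum.inr q)))) e (h (Sum.inr (Sum.inl (Sum.inr q)))) f =
        (((U ×ˢ (univ : Finset (Fin l))).filter
          (fun y => (e y.1 (f (y.1, y.2)), y.1) ∈ Q q)).card : ℝ) := by
      simp only [Z, hW, hh, Sum.elim_inr, Sum.elim_inl]
      rw [sum_boole]
    rw [h2] at h1
    exact h1.le
  · intro y b
    have h1 := hf (Sum.inr (Sum.inr (y, b)))
    rw [not_le] at h1
    have h2 : Z (W (Sum.inr (Sum.inr (y, b)))) e (h (Sum.inr (Sum.inr (y, b)))) f =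
        ((((Zy y ∩ U) ×ˢ (univ : Finset (Fin l))).filter
          (fun p => e p.1 (f (p.1, p.2)) = b)).card : ℝ) := by
      simp only [Z, hW, hh, Sum.elim_inr]
      rw [sum_boole]
    rw [h2] at h1
    exact h1.le

end Pool.Agent.Work.MP_db9399_owc.helper68
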